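import Pool.Agent.N426.FP.Main

/-!
# Multiple averages along squared integer parts of fractional powers: exponents below one

For every number of functions, all distinct exponents in the open unit interval and arbitrary
measure-preserving maps (which need not commute) the averages converge in mean, and the limit is
the product of the limits of the averages of the single functions along the squares.

By helper426.
-/

set_option autoImplicit false

namespace Pool.Agent.Results.MP_0b2319_an.ExponentsBelowOne

open Pool.Agent.N426.FP Finset Filter Topology MeasureTheory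

theorem result :
    ∀ (k : ℕ) (c : Fin k → ℝ), Function.Injective c → (∀ i, 0 < c i ∧ c i < 1) →
      ∀ (X : Type) [MeasurableSpace X] (μ : MeasureTheory.Measure X)
        [MeasureTheory.IsProbabilityMeasure μ] (T : Fin k → X → X),
        (∀ i, MeasureTheory.MeasurePreserving (T i) μ μ) →
        ∀ f : Fin k → X → ℝ, (∀ i, Measurable (f i)) →
          (∀ i, ∃ C : ℝ, ∀ x, |f i x| ≤ C) →
          ∃ F : Fin k → X → ℝ,
            (∀ i, Measurable (F i) ∧ (∃ C : ℝ, ∀ x, |F i x| ≤ C) ∧
              Filter.Tendsto
                (fun K : ℕ => MeasureTheory.eLpNorm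
                  (fun x => (1 / (K : ℝ)) * ∑ m ∈ Finset.range K, f i ((T i)^[m ^ 2] x)
                    - F i x) 2 μ)
                Filter.atTop (nhds 0)) ∧
            Filter.Tendsto
              (fun N : ℕ => MeasureTheory.eLpNorm
                (fun x => (1 / (N : ℝ)) * ∑ n ∈ Finset.Icc 1 N,
                    ∏ i : Fin k, f i ((T i)^[⌊(n : ℝ) ^ c i⌋₊ ^ 2] x)
                  - ∏ i : Fin k, F i x) 2 μ)
              Filter.atTop (nhds 0) := by
  intro k c hinj hc X _ μ _ T hT f hfm hfb
  choose B hB using hfb
  have hB0 : ∀ i, 0 ≤ B i := by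
    intro i
    obtain ⟨x⟩ : Nonempty X := nonempty_of_isProbabilityMeasure μ
    exact (abs_nonneg _).trans (hB i x)
  set g : Fin k → BM X := fun i => ⟨f i, hfm i, B i, hB i⟩ with hg
  choose F hF hunif using fun i => conc_unif μ (T i) (hT i) (g i) (B i) (hB0 i) (hB i)
  refine ⟨fun i => (F i : X → ℝ), fun i => ⟨(F i).2.1, (F i).2.2, ?_⟩, ?_⟩
  · set G : ℕ → BM X := fun K => (1 / (K : ℝ)) •
      ∑ m ∈ range K, (cmp (T i) (hT i).measurable ((0 + m) ^ 2) (g i) - F i) with hG
    have h1 : Tendsto (fun K : ℕ => sn μ (G K)) atTop (𝓝 0) := by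
      rw [Metric.tendsto_atTop]
      intro ε hε
      obtain ⟨K0, hK0⟩ := hunif i (ε / 2) (by positivity)
      refine ⟨max 1 K0, fun K hK => ?_⟩
      have hK1 : (0 : ℝ) < K := by
        have : 1 ≤ K := (le_max_left _ _).trans hK
        exact_mod_cast this
      have h2 := hK0 K ((le_max_right _ _).trans hK) 0
      rw [Real.dist_eq, sub_zero, abs_of_nonneg (apply_nonneg _ _)]
      have h3 : sn μ (G K) ≤ ε / 2 := by
        rw [hG]
        simp only
        rw [map_smul_eq_mul, Real.norm_of_nonneg (by positivity), one_div,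
          inv_mul_le_iff₀ hK1]
        linarith
      linarith
    have h2 : Tendsto (fun K : ℕ => ENNReal.ofReal (sn μ (G K))) atTop (𝓝 0) := by
      have := ENNReal.tendsto_ofReal h1
      rwa [ENNReal.ofReal_zero] at this
    refine h2.congr' ?_
    filter_upwards [eventually_ge_atTop 1] with K hK
    have hK' : (K : ℝ) ≠ 0 := by
      have : (0 : ℝ) < K := by exact_mod_cast hK
      exact this.ne'
    rw [← eLpNorm_bm]
    congr 1
    funext x
    have e2 : ((G K : BM X) : X → ℝ) x = (1 / (K : ℝ)) *
        ((∑ m ∈ range K, (cmp (T i) (hT i).measurable ((0 + m) ^ 2) (g i) - F i) : BM X) :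
          X → ℝ) x := rfl
    have e3 : ((∑ m ∈ range K, (cmp (T i) (hT i).measurable ((0 + m) ^ 2) (g i) - F i) : BM X) :
          X → ℝ) x = ∑ m ∈ range K, (f i ((T i)^[m ^ 2] x) - (F i : X → ℝ) x) := by
      have e4 : ((∑ m ∈ range K, (cmp (T i) (hT i).measurable ((0 + m) ^ 2) (g i) - F i) : BM X) :
          X → ℝ) = ∑ m ∈ range K,
            (((cmp (T i) (hT i).measurable ((0 + m) ^ 2) (g i) : BM X) : X → ℝ) -
              (F i : X → ℝ)) := by
        push_cast
        rfl
      rw [e4, Finset.sum_apply]
      refine Finset.sum_congr rfl fun m _ => ?_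
      rw [Pi.sub_apply, zero_add]
      rfl
    rw [e2, e3, Finset.sum_sub_distrib, Finset.sum_const, Finset.card_range, nsmul_eq_mul,
      mul_sub, ← mul_assoc, one_div_mul_cancel hK', one_mul]
  · have h1 := sn_tendsto μ c T hT g F hinj hc B (fun i => hB i) hF hunif
    have h2 : Tendsto (fun N : ℕ => ENNReal.ofReal (sn μ (av μ c T hT g F N))) atTop (𝓝 0) := by
      have := ENNReal.tendsto_ofReal h1
      rwa [ENNReal.ofReal_zero] at this
    refine h2.congr' ?_
    filter_upwards [eventually_ge_atTop 1] with N hN
    rw [← eLpNorm_bm]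
    congr 1
    funext x
    exact av_apply μ c T hT g F N hN x

end Pool.Agent.Results.MP_0b2319_an.ExponentsBelowOne
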